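import Pool.Agent.MR4.Lower
import Pool.Agent.MR8.Bridge
import Pool.Agent.MR8.Final

set_option autoImplicit false

/-!
# The maximal rank of complex `4 × 4 × 4` tensors is eight

Lower bound. The multiplication of the exterior algebra of a plane has rank at least eight (proof
by the substitution method, `Pool.Agent.MR4.Lower`).

Upper bound. If two slices are in the span of four matrices of rank one, then either some choice of
multiples of these four matrices makes the remaining pencil of slices diagonalisable, and the rank
is at most eight, or all the quartics in question have a common double root. The consequences of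
this alternative show first that tensors with a zero block `2 × 2 × 4` or with a slice of rank one
have rank at most eight, then that a slice of rank two has a kernel pencil of one type, that there
is a slice of rank two, and finally that all remaining tensors are equivalent to one tensor, for
which a decomposition of length eight is given.
-/

namespace Pool.Agent.Results.MP_9e4661_ag.ExactValueFour

/-- The complex `n × n × n` array `T` is a sum of `r` decomposable arrays `a ⊗ b ⊗ c`, where
`(a ⊗ b ⊗ c) i j k = a i * b j * c k`. -/
def IsSumOfDecomposable {n : ℕ} (r : ℕ) (T : Fin n → Fin n → Fin n → ℂ) : Prop :=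
  ∃ a b c : Fin r → Fin n → ℂ, ∀ i j k, T i j k = ∑ s, a s i * b s j * c s k

/-- The rank of a complex `n × n × n` array: the least `r` such that it is a sum of `r`
decomposable arrays. -/
noncomputable def tensorRank {n : ℕ} (T : Fin n → Fin n → Fin n → ℂ) : ℕ :=
  sInf {r : ℕ | IsSumOfDecomposable r T}

/-- The maximal rank of a complex `n × n × n` array. -/
noncomputable def mrank (n : ℕ) : ℕ :=
  sSup (Set.range fun T : Fin n → Fin n → Fin n → ℂ => tensorRank T)

lemma isSum_eight (T : Fin 4 → Fin 4 → Fin 4 → ℂ) : IsSumOfDecomposable 8 T :=
  Pool.Agent.MR8.exists_of_RK T (Pool.Agent.MR8.all _)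

lemma tensorRank_le_eight (T : Fin 4 → Fin 4 → Fin 4 → ℂ) : tensorRank T ≤ 8 :=
  Nat.sInf_le (isSum_eight T)

lemma bdd : BddAbove (Set.range fun T : Fin 4 → Fin 4 → Fin 4 → ℂ => tensorRank T) :=
  ⟨8, by rintro _ ⟨T, rfl⟩; exact tensorRank_le_eight T⟩

lemma eight_le_tensorRank : 8 ≤ tensorRank (fun k i j => Pool.Agent.MR4.ext k i j) := by
  have hne : {r : ℕ | IsSumOfDecomposable r (fun k i j => Pool.Agent.MR4.ext k i j)}.Nonempty :=
    ⟨8, isSum_eight _⟩
  have hmem : IsSumOfDecomposable (tensorRank (fun k i j => Pool.Agent.MR4.ext k i j))
      (fun k i j => Pool.Agent.MR4.ext k i j) := Nat.sInf_mem hne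
  by_contra hlt
  push Not at hlt
  exact Pool.Agent.MR4.lower (Pool.Agent.MR4.RK.mono hmem (by omega))

/-- The maximal rank of complex `4 × 4 × 4` tensors is eight. -/
theorem result : mrank 4 = 8 := by
  have h1 : mrank 4 ≤ 8 := csSup_le (Set.range_nonempty _) (by
    rintro _ ⟨T, rfl⟩
    exact tensorRank_le_eight T)
  have h2 : 8 ≤ mrank 4 := le_trans eight_le_tensorRank (le_csSup bdd ⟨_, rfl⟩)
  omega

end Pool.Agent.Results.MP_9e4661_ag.ExactValueFour
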