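import Pool.Agent.MaxRank.Config
import Pool.Agent.MaxRank.Lower

set_option autoImplicit false

/-!
# The maximal rank of complex `n × n × n` tensors is `n² / 3 + O(n)`

The upper bound works as follows. Write `n ≤ 3k` and split the coordinates into `k` groups of
three. There are `3k² + 2k` decomposable tensors (two for each group of coordinates with first
factor zero, three for each `(i, j)`) whose tangent spaces span the whole space, and whose sum `ℓ`
has rank at most `12k` because it is built from the structure tensor of the cyclic group. By the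
submersion theorem every tensor near `ℓ` has rank at most `3k² + 2k`, and
`T = t⁻¹ ((ℓ + t T) - ℓ)` then has rank at most `3k² + 14k` for every `T`.
-/

namespace Pool.Agent.Results.MP_9e4661_ag.MaxRankAsymptotics

open Pool.Agent.MaxRank

/-- The complex `n × n × n` array `T` is a sum of `r` decomposable arrays `a ⊗ b ⊗ c`, where
`(a ⊗ b ⊗ c) i j k = a i * b j * c k`. -/
def IsSumOfDecomposable {n : ℕ} (r : ℕ) (T : Fin n → Fin n → Fin n → ℂ) : Prop :=
  ∃ a b c : Fin r → Fin n → ℂ, ∀ i j k, T i j k = ∑ s, a s i * b s j * c s k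

/-- The rank of a complex `n × n × n` array: the least `r` such that it is a sum of `r`
decomposable arrays. -/
noncomputable def tensorRank {n : ℕ} (T : Fin n → Fin n → Fin n → ℂ) : ℕ :=
  sInf {r : ℕ | IsSumOfDecomposable r T}

/-- The maximal rank of a complex `n × n × n` array. -/
noncomputable def mrank (n : ℕ) : ℕ :=
  sSup (Set.range fun T : Fin n → Fin n → Fin n → ℂ => tensorRank T)

lemma isSum_of_RK {n r : ℕ} {T : Fin n → Fin n → Fin n → ℂ} (h : RK r T) :
    IsSumOfDecomposable r T := by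
  obtain ⟨S, fS, a, b, c, hc, hT⟩ := h
  obtain ⟨f⟩ : Nonempty (S ↪ Fin r) :=
    Function.Embedding.nonempty_of_card_le (by rw [Fintype.card_fin]; exact hc)
  refine ⟨Function.extend f a 0, Function.extend f b 0, Function.extend f c 0, fun i j k => ?_⟩
  rw [hT]
  refine Fintype.sum_of_injective f f.injective _ _ ?_ ?_
  · intro q hq
    rw [Function.extend_apply' _ _ _ (by simpa using hq)]
    simp
  · intro s
    rw [f.injective.extend_apply, f.injective.extend_apply, f.injective.extend_apply]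

lemma IsSumOfDecomposable.mono {n r r' : ℕ} {T : Fin n → Fin n → Fin n → ℂ}
    (h : IsSumOfDecomposable r T) (hr : r ≤ r') : IsSumOfDecomposable r' T := by
  obtain ⟨a, b, c, hT⟩ := h
  exact isSum_of_RK (RK.mono ⟨Fin r, inferInstance, a, b, c, by rw [Fintype.card_fin], hT⟩ hr)

/-- Every `n × n × n` array is a sum of `3k² + 14k` decomposable ones when `1 ≤ n ≤ 3k`. -/
lemma isSum_all {n k : ℕ} (hn : 1 ≤ n) (hk : n ≤ 3 * k) (T : Fin n → Fin n → Fin n → ℂ) :
    IsSumOfDecomposable (3 * k ^ 2 + 14 * k) T := by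
  have : NeZero k := ⟨by omega⟩
  have : Nonempty (Fin n) := ⟨⟨0, hn⟩⟩
  obtain ⟨e⟩ : Nonempty (Fin n ↪ D k) := Function.Embedding.nonempty_of_card_le (by
    rw [Fintype.card_fin, Fintype.card_prod, ZMod.card, Fintype.card_fin]; omega)
  have hg : ∀ i, Function.invFun e (e i) = i := Function.leftInverse_invFun e.injective
  have h1 := RK_all (k := k) (fun q1 q2 q3 =>
    T (Function.invFun e q1) (Function.invFun e q2) (Function.invFun e q3))
  have h2 := h1.comap e e e
  simp only [hg] at h2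
  exact isSum_of_RK h2

lemma tensorRank_le {n r : ℕ} {T : Fin n → Fin n → Fin n → ℂ} (h : IsSumOfDecomposable r T) :
    tensorRank T ≤ r := Nat.sInf_le h

lemma bddAbove_rank {n : ℕ} (hn : 1 ≤ n) :
    BddAbove (Set.range fun T : Fin n → Fin n → Fin n → ℂ => tensorRank T) := by
  refine ⟨3 * n ^ 2 + 14 * n, ?_⟩
  rintro _ ⟨T, rfl⟩
  exact tensorRank_le (isSum_all hn (by omega) T)

lemma isSum_tensorRank {n : ℕ} (hn : 1 ≤ n) (T : Fin n → Fin n → Fin n → ℂ) :
    IsSumOfDecomposable (tensorRank T) T :=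
  Nat.sInf_mem (s := {r : ℕ | IsSumOfDecomposable r T})
    ⟨_, isSum_all (k := n) hn (by omega) T⟩

/-- Sanity check: `mrank n` is the largest value of the rank. -/
lemma mrank_isGreatest {n : ℕ} (hn : 1 ≤ n) :
    IsGreatest (Set.range fun T : Fin n → Fin n → Fin n → ℂ => tensorRank T) (mrank n) :=
  ⟨Nat.sSup_mem (Set.range_nonempty _) (bddAbove_rank hn),
    fun _ h => le_csSup (bddAbove_rank hn) h⟩

lemma isSum_mrank {n : ℕ} (hn : 1 ≤ n) (T : Fin n → Fin n → Fin n → ℂ) :
    IsSumOfDecomposable (mrank n) T :=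
  (isSum_tensorRank hn T).mono (le_csSup (bddAbove_rank hn) ⟨T, rfl⟩)

/-- For every `n ≥ 1`, `n³ / (3n - 2) ≤ mrank n ≤ n² / 3 + 6 n + 32 / 3`. -/
theorem result (n : ℕ) (hn : 1 ≤ n) :
    (n : ℝ) ^ 3 / (3 * n - 2) ≤ mrank n ∧
      (mrank n : ℝ) ≤ (n : ℝ) ^ 2 / 3 + 6 * n + 32 / 3 := by
  have hnR : (1 : ℝ) ≤ n := by exact_mod_cast hn
  constructor
  · obtain ⟨m, rfl⟩ : ∃ m, n = m + 1 := ⟨n - 1, by omega⟩
    have h := dim_le (m := m) (r := mrank (m + 1)) (fun T => isSum_mrank hn T)
    have h' : ((m : ℝ) + 1) ^ 3 ≤ (3 * m + 1) * mrank (m + 1) := by exact_mod_cast h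
    rw [div_le_iff₀ (by push_cast; push_cast at hnR; linarith)]
    push_cast
    nlinarith
  · set k := (n + 2) / 3 with hk
    have h1 : n ≤ 3 * k := by omega
    have h2 : 3 * k ≤ n + 2 := by omega
    have h3 : mrank n ≤ 3 * k ^ 2 + 14 * k := by
      refine csSup_le (Set.range_nonempty _) ?_
      rintro _ ⟨T, rfl⟩
      exact tensorRank_le (isSum_all hn h1 T)
    have h4 : (mrank n : ℝ) ≤ 3 * (k : ℝ) ^ 2 + 14 * k := by exact_mod_cast h3
    have h5 : 3 * (k : ℝ) ≤ n + 2 := by exact_mod_cast h2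
    have h6 : (0 : ℝ) ≤ k := by positivity
    nlinarith

end Pool.Agent.Results.MP_9e4661_ag.MaxRankAsymptotics
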